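import Pool.Agent.H8.OA.LiftB
import Pool.Agent.H8.RZ.CTA
import Pool.Agent.H8.RZ.CTB

/-!
# Siegel's theorem: one unknown integer point on one unknown curve for each real number field

For every `n` there are a number `E n` and, for every subfield `K` of `ℝ`, a polynomial `Φ n K` in `ℤ[x,y]` and a point
`(a n K, b n K)` in `ℤ²` with the following two properties. `H ≥ 2` bounds the absolute values of the coefficients,
`m = max(|x|,|y|)`.

(A) Let `k` be a number field of degree at least three and `G ∈ ℤ[x,y]` of total degree at most `n`, irreducible over `ℚ`,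
such that all points at infinity of the curve `G = 0` with real residue field carry `k` (`AtInf k G`). Every integer point
`(x,y)` of `G = 0` has `m ≤ H^(E n)`, or it lies, for some subfield `K` of `ℝ` isomorphic to `k`, over the one point
`(a n K, b n K)`: the curve `Φ n K = 0` also carries `K` at infinity, its degree is at most `E n`, its coefficients at most
`H^(E n)`, the point is on it, and there is a finite map of the curve `G = 0` to the curve `Φ n K = 0`, of degree at most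
`E n` and with coefficients at most `H^(E n)`, which takes `(x,y)` to `(a n K, b n K)` (`Lies`, `Over`).

(B) For every `n` there are `N` and `D`: let `F ∈ ℤ[x,y]` be of total degree at most `n`, without non-constant zeros in
`ℚ̄[s,1/s]` (`Scope F`: for an irreducible curve this is exactly the hypothesis of Siegel's theorem). Every integer point
`(x,y)` of `F = 0` has `m ≤ H^D`, or there is a number field `K ⊂ ℝ` of degree at least three and at most `D`, of
discriminant at most `H^D`, such that `(x,y)` lifts to an integer point `(x + c y, w)`, `0 ≤ c ≤ D`,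
`m, |w| ≤ |x + c y|^D`, of a curve `G = 0` as in (A) of degree at most `N`, with coefficients at most `H^D` and `AtInf K G`,
and this point lies over the point `(a N K, b N K)` of the curve `Φ N K = 0` as in (A), all heights at most `H^D`.

So Siegel's theorem holds for all plane curves with a bound polynomial in the coefficients, up to one unknown integer point
of one unknown curve for each real number field.

(C) For 100 per cent of the pure fields there is no unknown point: for `r ≥ 5` and `δ < 1 - 9/(2r)` there is `C` such that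
for all `T, b ≥ 1`, for all but at most `C T^(1-δ)` of the integers `1 ≤ a ≤ T`, for every number field `k` which contains
an `r`-th root of `a/b` and every `G` as in (A) all integer points have `m ≤ (T H)^C`; and in every interval
`[X, X + X^δ]`, `X ≥ C`, this holds, with `X` in place of `T`, for all `a` but at most one.
-/

namespace Pool.Agent.H46.MG.OneCurveOnePoint

open MvPolynomial

/-- the hypothesis of Siegel's theorem: every solution of `F = 0` in `ℚ̄[s, 1/s]` is constant -/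
def Scope (F : MvPolynomial (Fin 2) ℤ) : Prop :=
  ∀ X Y : LaurentPolynomial (AlgebraicClosure ℚ),
    eval₂ (Int.castRingHom (LaurentPolynomial (AlgebraicClosure ℚ))) ![X, Y] F = 0 →
      ∃ a b : AlgebraicClosure ℚ, X = LaurentPolynomial.C a ∧ Y = LaurentPolynomial.C b

/-- `G` is irreducible over `ℚ`, and all points at infinity of `G = 0` with real residue field carry `k`: for every
number field `L` with a real embedding and all `X, Y` in `L((t))` with `G(X, Y) = 0`, either `X, Y` are in `L[[t]]` or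
`k` embeds in `L` -/
def AtInf (k : Type) [Field k] (G : MvPolynomial (Fin 2) ℤ) : Prop :=
  Irreducible (map (Int.castRingHom ℚ) G) ∧
    ∀ (L : Type) [Field L] [NumberField L], Nonempty (L →+* ℝ) → ∀ X Y : LaurentSeries L,
      eval₂ (Int.castRingHom (LaurentSeries L)) ![X, Y] G = 0 →
        (X ∈ (HahnSeries.ofPowerSeries ℤ L).range ∧ Y ∈ (HahnSeries.ofPowerSeries ℤ L).range) ∨
          Nonempty (k →+* L)

/-- the finite map `(A₁/A₀, A₂/A₀)` of the curve `G = 0` to the curve `Φ = 0`, of degree at most `E` and with coefficients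
at most `H^E`, takes `(x,y)` to `(a,b)`: at all complex zeros `(s,t)` of `G` with `A₀(s,t) ≠ 0` its value `(U,W)` is a zero
of `Φ`, and `|U|, |W|` are bounded by a polynomial in `|s|, |t|` (no poles at finite points), `|s|, |t|` by a polynomial
in `|U|` (finiteness) -/
def Over (E H : ℕ) (G Φ : MvPolynomial (Fin 2) ℤ) (x y a b : ℤ) : Prop :=
  ∃ A : Fin 3 → MvPolynomial (Fin 2) ℤ,
    (∀ i, (A i).totalDegree ≤ E ∧ ∀ m, |coeff m (A i)| ≤ (H : ℤ) ^ E) ∧
    eval ![x, y] (A 0) ≠ 0 ∧ eval ![x, y] (A 1) = a * eval ![x, y] (A 0) ∧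
    eval ![x, y] (A 2) = b * eval ![x, y] (A 0) ∧
    ∀ s t U W : ℂ, aeval ![s, t] G = 0 → aeval ![s, t] (A 0) ≠ 0 →
      aeval ![s, t] (A 1) = U * aeval ![s, t] (A 0) → aeval ![s, t] (A 2) = W * aeval ![s, t] (A 0) →
      aeval ![U, W] Φ = 0 ∧ max ‖U‖ ‖W‖ ≤ (H : ℝ) ^ E * (1 + max ‖s‖ ‖t‖) ^ E ∧
        max ‖s‖ ‖t‖ ≤ (H : ℝ) ^ E * (1 + ‖U‖) ^ E

/-- `(x,y)` lies over the integer point `(a,b)` of the curve `Φ = 0`, which carries `K` at infinity -/
def Lies (E H : ℕ) (K : Subfield ℝ) (Φ : MvPolynomial (Fin 2) ℤ) (a b : ℤ) (G : MvPolynomial (Fin 2) ℤ)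
    (x y : ℤ) : Prop :=
  AtInf K Φ ∧ Φ.totalDegree ≤ E ∧ (∀ m, |coeff m Φ| ≤ (H : ℤ) ^ E) ∧ eval ![a, b] Φ = 0 ∧ Over E H G Φ x y a b

/-- for `k ∋ θ`, `θ^r = β`, all integer points of all curves `G = 0` of degree at most `n` which carry `k` at infinity
have size at most `(T H)^C`: no unknown point -/
def NoPoint (n r C T : ℕ) (β : ℚ) : Prop :=
  ∀ (k : Type) [Field k] [NumberField k] (θ : k), θ ^ r = (β : k) →
    ∀ (G : MvPolynomial (Fin 2) ℤ) (H : ℕ), G.totalDegree ≤ n → AtInf k G → 2 ≤ H →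
      (∀ m, |coeff m G| ≤ (H : ℤ)) → ∀ x y : ℤ, eval ![x, y] G = 0 → max |x| |y| ≤ ((T : ℤ) * H) ^ C

private theorem vl_ev (F : MvPolynomial (Fin 2) ℤ) (x y : ℤ) :
    Pool.Agent.H34.AC.vl F x y = eval ![x, y] F := by
  unfold Pool.Agent.H34.AC.vl
  rw [← MvPolynomial.eval₂_id]
  congr 1

private theorem noPoint_of {n r C C' T : ℕ} {β : ℚ} (hT : 1 ≤ T) (hC : C ≤ C')
    (h : ¬ Pool.Agent.H8.RZ.Big r (max n 3) C T β) : NoPoint n r C' T β := by
  intro k _ _ θ hθ G H h1 h2 h3 h4 x y h5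
  by_contra h6
  push Not at h6
  apply h
  refine ⟨G, h2.1, h1.trans (le_max_left _ _), ?_, H, h3, h4, x, y, ?_, ?_⟩
  · intro L _ _ hL X Y hXY
    rcases h2.2 L hL X Y hXY with h7 | ⟨⟨e⟩⟩
    · exact Or.inl h7
    · refine Or.inr ⟨e θ, ?_⟩
      rw [← map_pow, hθ, map_ratCast]
  · rw [vl_ev]
    exact h5
  · have h7 : ((T * H) ^ C' : ℕ) < max x.natAbs y.natAbs := by
      have h8 : max |x| |y| = ((max x.natAbs y.natAbs : ℕ) : ℤ) := by
        rw [Int.abs_eq_natAbs, Int.abs_eq_natAbs]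
        push_cast
        rfl
      rw [h8] at h6
      exact_mod_cast h6
    exact lt_of_le_of_lt (Nat.pow_le_pow_right (Nat.mul_pos (by omega) (by omega)) hC) h7

/-- **Siegel's theorem, with one unknown integer point on one unknown curve for each real number field, and with none
for 100 per cent of the pure fields.** -/
theorem result : ∃ (Φ : ℕ → Subfield ℝ → MvPolynomial (Fin 2) ℤ) (a b : ℕ → Subfield ℝ → ℤ) (E : ℕ → ℕ),
    (∀ (n : ℕ) (k : Type) [Field k] [NumberField k], 3 ≤ Module.finrank ℚ k →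
      ∀ (G : MvPolynomial (Fin 2) ℤ) (H : ℕ), G.totalDegree ≤ n → AtInf k G → 2 ≤ H →
        (∀ m, |coeff m G| ≤ (H : ℤ)) → ∀ x y : ℤ, eval ![x, y] G = 0 →
          max |x| |y| ≤ (H : ℤ) ^ E n ∨
            ∃ K : Subfield ℝ, Nonempty (k ≃+* K) ∧ Lies (E n) H K (Φ n K) (a n K) (b n K) G x y) ∧
    (∀ n : ℕ, ∃ N D : ℕ, ∀ (F : MvPolynomial (Fin 2) ℤ) (H : ℕ), F.totalDegree ≤ n →
      Scope F → 2 ≤ H → (∀ m, |coeff m F| ≤ (H : ℤ)) → ∀ x y : ℤ, eval ![x, y] F = 0 →
        max |x| |y| ≤ (H : ℤ) ^ D ∨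
          ∃ (K : Subfield ℝ) (_ : NumberField K) (G : MvPolynomial (Fin 2) ℤ) (c : ℕ) (w : ℤ),
            3 ≤ Module.finrank ℚ K ∧ Module.finrank ℚ K ≤ D ∧ |NumberField.discr K| ≤ (H : ℤ) ^ D ∧
            G.totalDegree ≤ N ∧ AtInf K G ∧ (∀ m, |coeff m G| ≤ (H : ℤ) ^ D) ∧ c ≤ D ∧
            max |x| |y| ≤ |x + c * y| ^ D ∧ |w| ≤ |x + c * y| ^ D ∧
            eval ![x + c * y, w] G = 0 ∧ Lies D H K (Φ N K) (a N K) (b N K) G (x + c * y) w) ∧
    ∀ (n r : ℕ) (δ : ℝ), 5 ≤ r → 0 < δ → δ < 1 - 9 / (2 * r) → ∃ C : ℕ,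
      (∀ T q : ℕ, 1 ≤ T → 1 ≤ q →
        ({p : ℕ | 1 ≤ p ∧ p ≤ T ∧ ¬ NoPoint n r C T ((p : ℚ) / q)}.ncard : ℝ) ≤ C * (T : ℝ) ^ (1 - δ)) ∧
      ∀ X q : ℕ, C ≤ X → 1 ≤ q →
        {p : ℕ | X ≤ p ∧ (p : ℝ) ≤ X + (X : ℝ) ^ δ ∧ ¬ NoPoint n r C X ((p : ℚ) / q)}.Subsingleton := by
  classical
  obtain ⟨Φ, a, b, E, hA, hB⟩ := Pool.Agent.H8.OA.oneAll
  refine ⟨Φ, a, b, E, fun n k _ _ hk G H h1 h2 h3 h4 x y h5 => hA n k hk G H h1 h2 h3 h4 x y h5, hB, ?_⟩
  intro n r δ hr hδ hδ1
  obtain ⟨C1, h11, h1⟩ := Pool.Agent.H8.RZ.count_a r (max n 3) hr (le_max_right _ _) δ hδ hδ1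
  obtain ⟨C2, h21, h2⟩ := Pool.Agent.H8.RZ.int_one r (max n 3) hr (le_max_right _ _) δ hδ hδ1
  refine ⟨C1 + C2, fun T q hT hq => ?_, fun X q hX hq => ?_⟩
  · have hsub : {p : ℕ | 1 ≤ p ∧ p ≤ T ∧ ¬ NoPoint n r (C1 + C2) T ((p : ℚ) / q)} ⊆
        (((Finset.Icc 1 T).filter fun p : ℕ => Pool.Agent.H8.RZ.Big r (max n 3) C1 T ((p : ℚ) / q) :
          Finset ℕ) : Set ℕ) := by
      rintro p ⟨h5, h6, h7⟩
      rw [Finset.mem_coe, Finset.mem_filter, Finset.mem_Icc]
      refine ⟨⟨h5, h6⟩, ?_⟩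
      by_contra h8
      exact h7 (noPoint_of hT (by omega) h8)
    have h5 := Set.ncard_le_ncard hsub (Finset.finite_toSet _)
    rw [Set.ncard_coe_finset] at h5
    have h6 := h1 T q hT hq
    have h7 : (0 : ℝ) ≤ (T : ℝ) ^ (1 - δ) := by positivity
    have h8 : (C1 : ℝ) * (T : ℝ) ^ (1 - δ) ≤ ((C1 + C2 : ℕ) : ℝ) * (T : ℝ) ^ (1 - δ) := by
      refine mul_le_mul_of_nonneg_right ?_ h7
      push_cast
      linarith [Nat.cast_nonneg (α := ℝ) C2]
    exact ((Nat.cast_le.2 h5).trans h6).trans h8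
  · rintro p ⟨h5, h6, h7⟩ p' ⟨h8, h9, h10⟩
    have hX1 : 1 ≤ X := by omega
    refine h2 X q (by omega) hq p p' h5 h8 h6 h9 ?_ ?_
    · by_contra h11
      exact h7 (noPoint_of hX1 (by omega) h11)
    · by_contra h11
      exact h10 (noPoint_of hX1 (by omega) h11)

end Pool.Agent.H46.MG.OneCurveOnePoint
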